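import Pool.Agent.Y859.OE.Stm

/-!
# Project OE: decomposition of the integers which are not good
-/

set_option autoImplicit false

namespace Pool.Agent.Y65.OE

open Finset Pool.Agent.Y859.OE

theorem smp_eq (s j : ℕ) (hj : j ≠ 0) :
    smp s j = ∏ p ∈ j.primeFactors.filter (fun p => p ≤ s), p ^ j.factorization p := by
  unfold smp
  symm
  apply Finset.prod_subset
  · intro p hp
    rw [mem_filter, Nat.mem_primeFactors] at hp
    rw [mem_filter, mem_Icc]
    exact ⟨⟨hp.1.1.one_le, hp.2⟩, hp.1.1⟩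
  · intro p hp hnot
    rw [mem_filter, mem_Icc] at hp
    rw [mem_filter, Nat.mem_primeFactors] at hnot
    have hd : ¬ p ∣ j := fun hd => hnot ⟨⟨hp.2, hd, hj⟩, hp.1.2⟩
    rw [Nat.factorization_eq_zero_of_not_dvd hd, pow_zero]

theorem decomp (s j : ℕ) (hj : j ≠ 0) :
    j = smp s j * ∏ p ∈ j.primeFactors.filter (fun p => ¬ p ≤ s), p ^ j.factorization p := by
  have h1 : ∏ p ∈ j.primeFactors, p ^ j.factorization p = j := Nat.factorization_prod_pow_eq_self hj
  rw [smp_eq s j hj, Finset.prod_filter_mul_prod_filter_not]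
  exact h1.symm

theorem t_DEC : S_DEC := by
  intro s j hs hj hlt hng
  have hj0 : j ≠ 0 := by omega
  have hdec := decomp s j hj0
  obtain ⟨B, hB⟩ : ∃ B, B = j.primeFactors.filter (fun p => ¬ p ≤ s) := ⟨_, rfl⟩
  rw [← hB] at hdec
  have hmem : ∀ p ∈ B, p.Prime ∧ s < p ∧ p ^ 2 ∣ j := by
    intro p hp
    rw [hB, mem_filter, Nat.mem_primeFactors, not_le] at hp
    refine ⟨hp.1.1, hp.2, ?_⟩
    by_contra hcon
    exact hng ⟨p, hp.1.1, hp.2, hp.1.2.1, hcon⟩
  rcases B.eq_empty_or_nonempty with h0 | ⟨p, hp⟩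
  · left
    rw [h0, Finset.prod_empty, mul_one] at hdec
    exact hdec.symm
  right
  obtain ⟨hpp, hsp, hp2⟩ := hmem p hp
  have hone : B = {p} := by
    apply Finset.eq_singleton_iff_unique_mem.2 ⟨hp, ?_⟩
    intro q hq
    by_contra hqp
    obtain ⟨hqq, hsq, hq2⟩ := hmem q hq
    have hcop : Nat.Coprime (p ^ 2) (q ^ 2) :=
      Nat.Coprime.pow 2 2 ((Nat.coprime_primes hpp hqq).2 (fun h => hqp h.symm))
    have hdvd : p ^ 2 * q ^ 2 ∣ j := Nat.Coprime.mul_dvd_of_dvd_of_dvd hcop hp2 hq2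
    have hle := Nat.le_of_dvd (by omega) hdvd
    have h1 : s ^ 2 ≤ p ^ 2 := Nat.pow_le_pow_left hsp.le 2
    have h2 : s ^ 2 ≤ q ^ 2 := Nat.pow_le_pow_left hsq.le 2
    have h3 : s ^ 2 * s ^ 2 ≤ p ^ 2 * q ^ 2 := Nat.mul_le_mul h1 h2
    have h4 : s ^ 4 = s ^ 2 * s ^ 2 := by ring
    omega
  rw [hone, Finset.prod_singleton] at hdec
  have hv2 : 2 ≤ j.factorization p := (hpp.pow_dvd_iff_le_factorization hj0).1 hp2
  have hv4 : j.factorization p < 4 := by
    by_contra hcon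
    rw [not_lt] at hcon
    have h1 : p ^ 4 ∣ j := (hpp.pow_dvd_iff_le_factorization hj0).2 hcon
    have h2 := Nat.le_of_dvd (by omega) h1
    have h3 : s ^ 4 ≤ p ^ 4 := Nat.pow_le_pow_left hsp.le 4
    omega
  refine ⟨p, hpp, hsp, ?_⟩
  have hv : j.factorization p = 2 ∨ j.factorization p = 3 := by omega
  rcases hv with hv | hv
  · left
    rw [hv] at hdec
    exact hdec
  · right
    rw [hv] at hdec
    exact hdec

end Pool.Agent.Y65.OE
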